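import Mathlib

set_option autoImplicit false

open MeasureTheory Set Topology
open scoped ContDiff

namespace Pool.Agent.Helper96.SR

noncomputable section

/-- Euclidean space of dimension `N` -/
abbrev E (N : ℕ) : Type := EuclideanSpace ℝ (Fin N)

/-- on the open set `U` the set `Ω` is the sublevel set `{g < 0}` of the smooth function `g` -/
def LocalDef {N : ℕ} (Ω U : Set (E N)) (g : E N → ℝ) : Prop :=
  IsOpen U ∧ ContDiffOn ℝ ∞ g U ∧ ∀ y ∈ U, (y ∈ Ω ↔ g y < 0)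

/-- `ν` is the outward unit normal of `Ω` at `x` -/
def IsNormal {N : ℕ} (Ω : Set (E N)) (x ν : E N) : Prop :=
  ∃ U g, x ∈ U ∧ LocalDef Ω U g ∧ gradient g x ≠ 0 ∧ ν = ‖gradient g x‖⁻¹ • gradient g x

/-- bounded connected open sets with smooth boundary -/
def IsDom {N : ℕ} (Ω : Set (E N)) : Prop :=
  IsOpen Ω ∧ Bornology.IsBounded Ω ∧ IsConnected Ω ∧ ∀ x ∈ frontier Ω, ∃ ν, IsNormal Ω x ν

/-- `u` is smooth up to the boundary of `Ω` near the boundary point `x`, with outer normal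
derivative `c` there -/
def NormalDeriv {N : ℕ} (Ω : Set (E N)) (u : E N → ℝ) (x : E N) (c : ℝ) : Prop :=
  ∃ U v, IsOpen U ∧ x ∈ U ∧ ContDiffOn ℝ ∞ v U ∧ (∀ y ∈ U ∩ Ω, u y = v y) ∧
    ∃ ν, IsNormal Ω x ν ∧ fderiv ℝ v x ν = c

/-- the conductivity -/
def coef {N : ℕ} (σc : ℝ) (D : Set (E N)) (x : E N) : ℝ := by
  classical exact if x ∈ D then σc else 1

/-- `(D, Ω)` is a solution of the two-phase overdetermined problem -/
def IsSol {N : ℕ} (σc : ℝ) (D Ω : Set (E N)) : Prop :=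
  closure D ⊆ Ω ∧ ∃ (c : ℝ) (u : E N → ℝ), (∃ L, LipschitzWith L u) ∧ (∀ x, x ∉ Ω → u x = 0) ∧
    (∀ φ : E N → ℝ, ContDiff ℝ ∞ φ → HasCompactSupport φ → tsupport φ ⊆ Ω →
      ∫ x in Ω, coef σc D x * inner ℝ (gradient u x) (gradient φ x) = ∫ x in Ω, φ x) ∧
    ∀ x ∈ frontier Ω, NormalDeriv Ω u x c

/-- spherical shells -/
def Sh (N : ℕ) (p q : ℝ) : Set (E N) := {x | p < ‖x‖ ∧ ‖x‖ < q}

/-- the radial flux -/
def ff (N : ℕ) (C r : ℝ) : ℝ := -r / N + C / r ^ (N - 1)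

end

end Pool.Agent.Helper96.SR
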