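import Pool.Agent.Helper96.SR.Defs

set_option autoImplicit false

open MeasureTheory Set Topology

namespace Pool.Agent.Helper96.SR

noncomputable section

lemma hasDerivAt_ff (n : ℕ) (C r : ℝ) (hr : 0 < r) :
    HasDerivAt (fun x => ff (n + 2) C x)
      (-(1 / ((n : ℝ) + 2)) - ((n : ℝ) + 1) * C / r ^ (n + 2)) r := by
  have h1 : HasDerivAt (fun x : ℝ => -x / (((n + 2 : ℕ) : ℝ))) (-(1 : ℝ) / (((n + 2 : ℕ) : ℝ))) r :=
    (hasDerivAt_id r).neg.div_const _
  have h2 : HasDerivAt (fun x : ℝ => C / x ^ (n + 1))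
      ((0 * r ^ (n + 1) - C * (((n + 1 : ℕ) : ℝ) * r ^ (n + 1 - 1) )) / (r ^ (n + 1)) ^ 2) r :=
    (hasDerivAt_const r C).div (hasDerivAt_pow (n + 1) r) (by positivity)
  have h3 := h1.add h2
  have e : (fun x => ff (n + 2) C x) = fun x => -x / (((n + 2 : ℕ) : ℝ)) + C / x ^ (n + 1) := by
    funext x
    simp [ff]
  rw [e]
  refine h3.congr_deriv ?_
  have hr' : r ≠ 0 := hr.ne'
  have hn : (n : ℝ) + 2 ≠ 0 := by positivity
  push_cast
  field_simp
  ring

lemma ff_diff_upper (n : ℕ) (C R k1 : ℝ) (hk : 1 / ((n : ℝ) + 2) + ((n : ℝ) + 1) * C ≤ k1)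
    (hC : 0 ≤ C) (x y : ℝ) (hx : 1 ≤ x) (hxy : x ≤ y) (hy : y ≤ R) :
    ff (n + 2) C x - ff (n + 2) C y ≤ k1 * (y - x) := by
  have hconv : Convex ℝ (Icc (1 : ℝ) R) := convex_Icc 1 R
  have hcont : ContinuousOn (fun x => ff (n + 2) C x) (Icc (1 : ℝ) R) := fun z hz =>
    (hasDerivAt_ff n C z (by linarith [hz.1])).continuousAt.continuousWithinAt
  have hdiff : DifferentiableOn ℝ (fun x => ff (n + 2) C x) (interior (Icc (1 : ℝ) R)) :=
    fun z hz => (hasDerivAt_ff n C z
      (by have := interior_subset hz; linarith [this.1])).differentiableAt.differentiableWithinAt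
  have key := hconv.mul_sub_le_image_sub_of_le_deriv hcont hdiff (C := -k1)
    (fun z hz => by
      have hz1 := interior_subset hz
      have hz0 : (0 : ℝ) < z := by linarith [hz1.1]
      rw [(hasDerivAt_ff n C z hz0).deriv]
      have h1 : (1 : ℝ) ≤ z ^ (n + 2) := one_le_pow₀ hz1.1
      have h2 : ((n : ℝ) + 1) * C / z ^ (n + 2) ≤ ((n : ℝ) + 1) * C :=
        div_le_self (by positivity) h1
      linarith)
    x ⟨hx, by linarith⟩ y ⟨by linarith, hy⟩ hxy
  linarith

lemma ff_diff_lower (n : ℕ) (C R k2 : ℝ)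
    (hk : k2 ≤ 1 / ((n : ℝ) + 2) + ((n : ℝ) + 1) * C / R ^ (n + 2))
    (hC : 0 ≤ C) (x y : ℝ) (hx : 1 ≤ x) (hxy : x ≤ y) (hy : y ≤ R) :
    k2 * (y - x) ≤ ff (n + 2) C x - ff (n + 2) C y := by
  have hconv : Convex ℝ (Icc (1 : ℝ) R) := convex_Icc 1 R
  have hcont : ContinuousOn (fun x => ff (n + 2) C x) (Icc (1 : ℝ) R) := fun z hz =>
    (hasDerivAt_ff n C z (by linarith [hz.1])).continuousAt.continuousWithinAt
  have hdiff : DifferentiableOn ℝ (fun x => ff (n + 2) C x) (interior (Icc (1 : ℝ) R)) :=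
    fun z hz => (hasDerivAt_ff n C z
      (by have := interior_subset hz; linarith [this.1])).differentiableAt.differentiableWithinAt
  have key := hconv.image_sub_le_mul_sub_of_deriv_le hcont hdiff (C := -k2)
    (fun z hz => by
      have hz1 := interior_subset hz
      have hz0 : (0 : ℝ) < z := by linarith [hz1.1]
      rw [(hasDerivAt_ff n C z hz0).deriv]
      have h1 : z ^ (n + 2) ≤ R ^ (n + 2) := pow_le_pow_left₀ hz0.le hz1.2 _
      have h2 : ((n : ℝ) + 1) * C / R ^ (n + 2) ≤ ((n : ℝ) + 1) * C / z ^ (n + 2) :=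
        div_le_div_of_nonneg_left (by positivity) (by positivity) h1
      linarith)
    x ⟨hx, by linarith⟩ y ⟨by linarith, hy⟩ hxy
  linarith

theorem params (N : ℕ) (hN : 2 ≤ N) (t : ℝ) (ht : t ≠ 0) (ht1 : -1 < t) :
    ∃ (C r2 a b : ℝ), 1 < a ∧ a < b ∧ b < r2 ∧ ff N C r2 = - ff N C 1 ∧
      (∫ s in (1:ℝ)..r2, ff N C s) + t * (∫ s in a..b, ff N C s) = 0 := by
  obtain ⟨n, rfl⟩ : ∃ n, N = n + 2 := ⟨N - 2, by omega⟩
  clear hN
  have hM : (0 : ℝ) < (n : ℝ) + 2 := by positivity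
  have habs : 0 < |t| := abs_pos.mpr ht
  obtain ⟨eps, heps0, heps1, heps2⟩ : ∃ eps : ℝ, 0 < eps ∧ eps ≤ 1 / 4 ∧ 64 * eps ≤ |t| :=
    ⟨min (1 / 4) (|t| / 64), lt_min (by norm_num) (by positivity), min_le_left _ _, by
      have := min_le_right (1 / 4) (|t| / 64)
      linarith⟩
  have hq1 : eps / ((n : ℝ) + 2) ≤ 1 / 4 := by
    rw [div_le_iff₀ hM]
    nlinarith
  have hq2 : 0 < eps / ((n : ℝ) + 2) := by positivity
  obtain ⟨q, hq⟩ : ∃ q : ℝ, q = 1 - eps / ((n : ℝ) + 2) := ⟨_, rfl⟩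
  have hq0 : 0 < q := by linarith
  have hqlt : q < 1 := by linarith
  have hqN : 1 - eps ≤ q ^ (n + 2) := by
    have := one_add_mul_le_pow (a := q - 1) (by linarith) (n + 2)
    have e : ((n + 2 : ℕ) : ℝ) * (q - 1) = - eps := by
      rw [hq]
      push_cast
      field_simp
      ring
    rw [e] at this
    calc 1 - eps = 1 + - eps := by ring
      _ ≤ _ := this
      _ = _ := by ring_nf
  obtain ⟨R, hR⟩ : ∃ R : ℝ, R = q⁻¹ := ⟨_, rfl⟩
  have hR1 : 1 < R := by
    rw [hR]
    exact (one_lt_inv₀ hq0).mpr hqlt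
  have hR0 : 0 < R := by linarith
  have hRN : 1 - eps ≤ 1 / R ^ (n + 2) := by
    rw [hR]
    rw [inv_pow, one_div, inv_inv]
    exact hqN
  obtain ⟨C, hC⟩ : ∃ C : ℝ, C = (1 + R) / (((n : ℝ) + 2) * (1 + 1 / R ^ (n + 1))) := ⟨_, rfl⟩
  have hC0 : 0 < C := by rw [hC]; positivity
  have hRn : (0 : ℝ) < R ^ (n + 1) := by positivity
  have hsym : ff (n + 2) C R = - ff (n + 2) C 1 := by
    have : C * (1 + 1 / R ^ (n + 1)) = (1 + R) / ((n : ℝ) + 2) := by
      rw [hC]
      have : (1 + 1 / R ^ (n + 1)) ≠ 0 := by positivity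
      field_simp
    simp only [ff, one_pow]
    push_cast
    have e1 : C / R ^ (n + 1) = C * (1 / R ^ (n + 1)) := by
      simp [div_eq_mul_inv]
    rw [e1]
    have e2 : C + C * (1 / R ^ (n + 1)) = 1 / ((n : ℝ) + 2) + R / ((n : ℝ) + 2) := by
      rw [← add_div, ← this]; ring
    have e3 : -R / ((n : ℝ) + 2) = - (R / ((n : ℝ) + 2)) := by ring
    have e4 : -1 / ((n : ℝ) + 2) = - (1 / ((n : ℝ) + 2)) := by ring
    rw [e3, e4, div_one]
    linarith
  obtain ⟨m, hm⟩ : ∃ m : ℝ, m = ff (n + 2) C 1 := ⟨_, rfl⟩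
  obtain ⟨k1, hk1⟩ : ∃ k1 : ℝ, k1 = 1 / ((n : ℝ) + 2) + ((n : ℝ) + 1) * C := ⟨_, rfl⟩
  obtain ⟨k2, hk2⟩ : ∃ k2 : ℝ, k2 = 1 / ((n : ℝ) + 2) + ((n : ℝ) + 1) * C / R ^ (n + 2) := ⟨_, rfl⟩
  obtain ⟨w, hw⟩ : ∃ w : ℝ, w = R - 1 := ⟨_, rfl⟩
  have hw0 : 0 < w := by linarith
  have hk10 : 0 < k1 := by rw [hk1]; positivity
  have hkk : k1 - k2 ≤ eps * k1 := by
    rw [hk1, hk2]
    have h1 : ((n : ℝ) + 1) * C * (1 - eps) ≤ ((n : ℝ) + 1) * C / R ^ (n + 2) := by
      rw [div_eq_mul_one_div]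
      exact mul_le_mul_of_nonneg_left hRN (by positivity)
    have h2 : 0 ≤ eps * (1 / ((n : ℝ) + 2)) := by positivity
    nlinarith
  have U := ff_diff_upper n C R k1 hk1.ge hC0.le
  have L := ff_diff_lower n C R k2 hk2.le hC0.le
  -- bounds from both ends
  have hU1 : ∀ x, 1 ≤ x → x ≤ R → m - k1 * (x - 1) ≤ ff (n + 2) C x := fun x h1 h2 => by
    have := U 1 x le_rfl h1 h2
    linarith
  have hL1 : ∀ x, 1 ≤ x → x ≤ R → ff (n + 2) C x ≤ m - k2 * (x - 1) := fun x h1 h2 => by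
    have := L 1 x le_rfl h1 h2
    linarith
  have hU2 : ∀ x, 1 ≤ x → x ≤ R → ff (n + 2) C x ≤ - m + k1 * (R - x) := fun x h1 h2 => by
    have := U x R h1 h2 le_rfl
    linarith
  have h2m1 : k2 * w ≤ 2 * m := by
    have := L 1 R le_rfl hR1.le le_rfl
    rw [hsym] at this
    rw [hw]; linarith
  have h2m2 : 2 * m ≤ k1 * w := by
    have := U 1 R le_rfl hR1.le le_rfl
    rw [hsym] at this
    rw [hw]; linarith
  have hcontOn : ContinuousOn (fun x => ff (n + 2) C x) (Icc (1 : ℝ) R) := fun z hz =>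
    (hasDerivAt_ff n C z (by linarith [hz.1])).continuousAt.continuousWithinAt
  have hint : ∀ x y, 1 ≤ x → x ≤ y → y ≤ R →
      IntervalIntegrable (fun x => ff (n + 2) C x) volume x y := fun x y h1 h2 h3 =>
    (hcontOn.mono (by
      rw [uIcc_of_le h2]
      exact Icc_subset_Icc h1 h3)).intervalIntegrable
  -- bounds on the full integral
  obtain ⟨S, hS⟩ : ∃ S : ℝ, S = ∫ s in (1:ℝ)..R, ff (n + 2) C s := ⟨_, rfl⟩
  have hSlo : -(k1 - k2) * w ^ 2 / 2 ≤ S := by
    have h1 : (∫ s in (1:ℝ)..R, (m - k1 * (s - 1))) ≤ S := by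
      rw [hS]
      apply intervalIntegral.integral_mono_on hR1.le
      · exact (by fun_prop : Continuous fun s : ℝ => m - k1 * (s - 1)).intervalIntegrable _ _
      · exact hint 1 R le_rfl hR1.le le_rfl
      · exact fun x hx => hU1 x hx.1 hx.2
    have h2 : (∫ s in (1:ℝ)..R, (m - k1 * (s - 1))) = m * w - k1 * w ^ 2 / 2 := by
      have : ∀ s ∈ uIcc (1 : ℝ) R, HasDerivAt (fun s : ℝ => m * s - k1 * (s - 1) ^ 2 / 2)
          (m - k1 * (s - 1)) s := fun s _ => by
        have h := ((hasDerivAt_id s).const_mul m).sub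
          (((((hasDerivAt_id s).sub_const 1).pow 2).const_mul k1).div_const 2)
        refine (h.congr_deriv ?_)
        simp
        ring
      rw [intervalIntegral.integral_eq_sub_of_hasDerivAt this
        ((by fun_prop : Continuous fun s : ℝ => m - k1 * (s - 1)).intervalIntegrable _ _), hw]
      ring
    nlinarith
  have hShi : S ≤ (k1 - k2) * w ^ 2 / 2 := by
    have h1 : S ≤ (∫ s in (1:ℝ)..R, (m - k2 * (s - 1))) := by
      rw [hS]
      apply intervalIntegral.integral_mono_on hR1.le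
      · exact hint 1 R le_rfl hR1.le le_rfl
      · exact (by fun_prop : Continuous fun s : ℝ => m - k2 * (s - 1)).intervalIntegrable _ _
      · exact fun x hx => hL1 x hx.1 hx.2
    have h2 : (∫ s in (1:ℝ)..R, (m - k2 * (s - 1))) = m * w - k2 * w ^ 2 / 2 := by
      have : ∀ s ∈ uIcc (1 : ℝ) R, HasDerivAt (fun s : ℝ => m * s - k2 * (s - 1) ^ 2 / 2)
          (m - k2 * (s - 1)) s := fun s _ => by
        have h := ((hasDerivAt_id s).const_mul m).sub
          (((((hasDerivAt_id s).sub_const 1).pow 2).const_mul k2).div_const 2)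
        refine (h.congr_deriv ?_)
        simp
        ring
      rw [intervalIntegral.integral_eq_sub_of_hasDerivAt this
        ((by fun_prop : Continuous fun s : ℝ => m - k2 * (s - 1)).intervalIntegrable _ _), hw]
      ring
    nlinarith
  -- sliding window
  obtain ⟨W, hW⟩ : ∃ W : ℝ → ℝ, W = fun s => ∫ x in s..(s + w / 16), ff (n + 2) C x := ⟨_, rfl⟩
  have hWc : ContinuousOn W (Icc (1 + w / 16) (1 + 7 * w / 8)) := by
    -- W s = P (s + w/16) - P s
    have hP : ContinuousOn (fun y => ∫ x in (1 : ℝ)..y, ff (n + 2) C x) (Icc (1 : ℝ) R) := by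
      have := intervalIntegral.continuousOn_primitive_interval (μ := volume)
        (f := fun x => ff (n + 2) C x) (a := 1) (b := R)
        (by rw [uIcc_of_le hR1.le]; exact hcontOn.integrableOn_Icc)
      rwa [uIcc_of_le hR1.le] at this
    have e : ∀ s ∈ Icc (1 + w / 16) (1 + 7 * w / 8),
        W s = (∫ x in (1 : ℝ)..(s + w / 16), ff (n + 2) C x) - ∫ x in (1 : ℝ)..s, ff (n + 2) C x := by
      intro s hs
      rw [hW]
      have h1 : 1 ≤ s := by linarith [hs.1]
      have h2 : s + w / 16 ≤ R := by linarith [hs.2]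
      have := intervalIntegral.integral_interval_sub_left
        (hint 1 (s + w / 16) le_rfl (by linarith) h2) (hint 1 s le_rfl h1 (by linarith))
      exact this.symm
    refine ContinuousOn.congr ?_ e
    refine ContinuousOn.sub ?_ ?_
    · refine hP.comp (f := fun s => s + w / 16) (by fun_prop) ?_
      intro s hs
      exact ⟨by linarith [hs.1], by linarith [hs.2]⟩
    · refine hP.mono ?_
      intro s hs
      exact ⟨by linarith [hs.1], by linarith [hs.2]⟩
  have hWl : k1 * w ^ 2 / 64 ≤ W (1 + w / 16) := by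
    have h1 : (∫ s in (1 + w / 16)..(1 + w / 16 + w / 16), (k1 * w / 4)) ≤ W (1 + w / 16) := by
      rw [hW]
      apply intervalIntegral.integral_mono_on (by linarith)
      · exact continuous_const.intervalIntegrable _ _
      · exact hint _ _ (by linarith) (by linarith) (by linarith)
      · intro x hx
        have := hU1 x (by linarith [hx.1]) (by linarith [hx.2])
        have h3 : k1 * (x - 1) ≤ k1 * (w / 8) :=
          mul_le_mul_of_nonneg_left (by linarith [hx.2]) hk10.le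
        nlinarith
    rw [intervalIntegral.integral_const, smul_eq_mul] at h1
    nlinarith
  have hWr : W (1 + 7 * w / 8) ≤ -(k1 * w ^ 2 / 64) := by
    have h1 : W (1 + 7 * w / 8) ≤ (∫ s in (1 + 7 * w / 8)..(1 + 7 * w / 8 + w / 16), (-(k1 * w / 4))) := by
      rw [hW]
      apply intervalIntegral.integral_mono_on (by linarith)
      · exact hint _ _ (by linarith) (by linarith) (by linarith)
      · exact continuous_const.intervalIntegrable _ _
      · intro x hx
        have := hU2 x (by linarith [hx.1]) (by linarith [hx.2])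
        have h3 : k1 * (R - x) ≤ k1 * (w / 8) :=
          mul_le_mul_of_nonneg_left (by linarith [hx.1]) hk10.le
        nlinarith
    rw [intervalIntegral.integral_const, smul_eq_mul] at h1
    nlinarith
  have hSabs1 : S ≤ eps * k1 * w ^ 2 / 2 := by nlinarith [sq_nonneg w]
  have hSabs2 : -(eps * k1 * w ^ 2 / 2) ≤ S := by nlinarith [sq_nonneg w]
  have hkw : 0 < k1 * w ^ 2 := by positivity
  have hbig : eps * k1 * w ^ 2 / 2 ≤ |t| * (k1 * w ^ 2 / 64) := by nlinarith
  -- IVT for -S / t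
  have htarget : -S / t ∈ Icc (W (1 + 7 * w / 8)) (W (1 + w / 16)) := by
    have hST : |(-S / t)| ≤ k1 * w ^ 2 / 64 := by
      rw [abs_div, abs_neg, div_le_iff₀ habs]
      rw [abs_le]
      constructor <;> linarith
    have := abs_le.mp hST
    exact ⟨by linarith [this.1], by linarith [this.2]⟩
  obtain ⟨a, ha, haW⟩ := intermediate_value_Icc' (by linarith) hWc htarget
  refine ⟨C, R, a, a + w / 16, by linarith [ha.1], by linarith, by linarith [ha.2], hsym, ?_⟩
  have : (∫ s in a..(a + w / 16), ff (n + 2) C s) = -S / t := by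
    rw [← haW, hW]
  rw [this, ← hS]
  field_simp
  ring

end

end Pool.Agent.Helper96.SR
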