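import Mathlib
import Pool.Agent.Helper96.SR.Defs

set_option autoImplicit false

open MeasureTheory Set Topology
open scoped ContDiff

namespace Pool.Agent.Helper96.SR

lemma hasGradientAt_normSq_sub {N : ℕ} (c : ℝ) (x : E N) :
    HasGradientAt (fun y : E N => ‖y‖ ^ 2 - c) ((2 : ℝ) • x) x := by
  have h := ((hasStrictFDerivAt_norm_sq x).hasFDerivAt).sub_const c
  rw [hasGradientAt_iff_hasFDerivAt]
  refine h.congr_fderiv ?_
  ext y
  simp [two_smul]

lemma hasGradientAt_sub_normSq {N : ℕ} (c : ℝ) (x : E N) :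
    HasGradientAt (fun y : E N => c - ‖y‖ ^ 2) (-((2 : ℝ) • x)) x := by
  have h := ((hasStrictFDerivAt_norm_sq x).hasFDerivAt).const_sub c
  rw [hasGradientAt_iff_hasFDerivAt]
  refine h.congr_fderiv ?_
  ext y
  simp [two_smul]

lemma smul_two {N : ℕ} {x : E N} (hx : x ≠ 0) :
    ‖(2 : ℝ) • x‖⁻¹ • ((2 : ℝ) • x) = ‖x‖⁻¹ • x := by
  have h : ‖x‖ ≠ 0 := norm_ne_zero_iff.2 hx
  rw [norm_smul, smul_smul]
  congr 1
  rw [Real.norm_eq_abs, abs_of_pos (by norm_num : (0:ℝ) < 2)]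
  field_simp

lemma isOpen_shell (N : ℕ) (p q : ℝ) : IsOpen (Sh N p q) :=
  (isOpen_lt continuous_const continuous_norm).inter (isOpen_lt continuous_norm continuous_const)

lemma closure_shell (N : ℕ) (a b : ℝ) : closure (Sh N a b) ⊆ {x | a ≤ ‖x‖ ∧ ‖x‖ ≤ b} := by
  apply closure_minimal
  · intro x hx
    exact ⟨hx.1.le, hx.2.le⟩
  · exact (isClosed_le continuous_const continuous_norm).inter
      (isClosed_le continuous_norm continuous_const)

lemma frontier_shell (N : ℕ) (p q : ℝ) : frontier (Sh N p q) ⊆ {x | ‖x‖ = p ∨ ‖x‖ = q} := by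
  intro x hx
  rw [(isOpen_shell N p q).frontier_eq] at hx
  obtain ⟨h1, h2⟩ := closure_shell N p q hx.1
  by_contra hcon
  simp only [mem_setOf_eq, not_or] at hcon
  exact hx.2 ⟨lt_of_le_of_ne h1 (Ne.symm hcon.1), lt_of_le_of_ne h2 hcon.2⟩

lemma normal_outer {N : ℕ} {p q : ℝ} (hp : 0 < p) (hpq : p < q) {x : E N} (hx : ‖x‖ = q) :
    IsNormal (Sh N p q) x (‖x‖⁻¹ • x) := by
  have hq : 0 < q := hp.trans hpq
  have hx0 : x ≠ 0 := by
    intro h; rw [h, norm_zero] at hx; linarith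
  refine ⟨{y | p < ‖y‖}, fun y => ‖y‖ ^ 2 - q ^ 2, ?_, ⟨?_, ?_, ?_⟩, ?_, ?_⟩
  · show p < ‖x‖
    rw [hx]; exact hpq
  · exact isOpen_lt continuous_const continuous_norm
  · exact ((contDiff_norm_sq ℝ).sub contDiff_const).contDiffOn
  · intro y hy
    have hy' : p < ‖y‖ := hy
    constructor
    · intro h
      have h2 : ‖y‖ < q := h.2
      have := pow_lt_pow_left₀ h2 (norm_nonneg y) (two_ne_zero)
      simp only []
      linarith
    · intro h
      refine ⟨hy', ?_⟩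
      have h3 : ‖y‖ ^ 2 < q ^ 2 := by linarith
      exact lt_of_pow_lt_pow_left₀ 2 hq.le h3
  · rw [(hasGradientAt_normSq_sub (q ^ 2) x).gradient]
    exact smul_ne_zero two_ne_zero hx0
  · rw [(hasGradientAt_normSq_sub (q ^ 2) x).gradient, smul_two hx0]

lemma normal_inner {N : ℕ} {p q : ℝ} (hp : 0 < p) (hpq : p < q) {x : E N} (hx : ‖x‖ = p) :
    IsNormal (Sh N p q) x (-(‖x‖⁻¹ • x)) := by
  have hx0 : x ≠ 0 := by
    intro h; rw [h, norm_zero] at hx; linarith
  refine ⟨{y | ‖y‖ < q}, fun y => p ^ 2 - ‖y‖ ^ 2, ?_, ⟨?_, ?_, ?_⟩, ?_, ?_⟩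
  · show ‖x‖ < q
    rw [hx]; exact hpq
  · exact isOpen_lt continuous_norm continuous_const
  · exact (contDiff_const.sub (contDiff_norm_sq ℝ)).contDiffOn
  · intro y hy
    have hy' : ‖y‖ < q := hy
    constructor
    · intro h
      have h2 : p < ‖y‖ := h.1
      have := pow_lt_pow_left₀ h2 hp.le (two_ne_zero)
      simp only []
      linarith
    · intro h
      refine ⟨?_, hy'⟩
      have h3 : p ^ 2 < ‖y‖ ^ 2 := by linarith
      exact lt_of_pow_lt_pow_left₀ 2 (norm_nonneg y) h3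
  · rw [(hasGradientAt_sub_normSq (p ^ 2) x).gradient]
    exact neg_ne_zero.2 (smul_ne_zero two_ne_zero hx0)
  · rw [(hasGradientAt_sub_normSq (p ^ 2) x).gradient, norm_neg, smul_neg, smul_two hx0]

lemma normal_ball {N : ℕ} {r : ℝ} (hr : 0 < r) {x : E N} (hx : ‖x‖ = r) :
    IsNormal (Metric.ball (0 : E N) r) x (‖x‖⁻¹ • x) := by
  have hx0 : x ≠ 0 := by
    intro h; rw [h, norm_zero] at hx; linarith
  refine ⟨Set.univ, fun y => ‖y‖ ^ 2 - r ^ 2, mem_univ _, ⟨isOpen_univ, ?_, ?_⟩, ?_, ?_⟩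
  · exact ((contDiff_norm_sq ℝ).sub contDiff_const).contDiffOn
  · intro y _
    rw [mem_ball_zero_iff]
    constructor
    · intro h2
      have := pow_lt_pow_left₀ h2 (norm_nonneg y) (two_ne_zero)
      simp only []
      linarith
    · intro h
      have h3 : ‖y‖ ^ 2 < r ^ 2 := by linarith
      exact lt_of_pow_lt_pow_left₀ 2 hr.le h3
  · rw [(hasGradientAt_normSq_sub (r ^ 2) x).gradient]
    exact smul_ne_zero two_ne_zero hx0
  · rw [(hasGradientAt_normSq_sub (r ^ 2) x).gradient, smul_two hx0]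

lemma one_lt_rank_E {N : ℕ} (hN : 2 ≤ N) : 1 < Module.rank ℝ (E N) := by
  have h1 : Module.finrank ℝ (E N) = N := by simp
  have h2 : Module.rank ℝ (E N) = ((N : ℕ) : Cardinal) := by
    rw [← Module.finrank_eq_rank, h1]
  rw [h2]
  exact_mod_cast (by omega : 1 < N)

lemma isConnected_shell {N : ℕ} (hN : 2 ≤ N) {p q : ℝ} (hp : 0 < p) (hpq : p < q) :
    IsConnected (Sh N p q) := by
  have h1 : IsConnected (Metric.sphere (0 : E N) 1 ×ˢ Ioo p q) :=
    (isConnected_sphere (one_lt_rank_E hN) 0 zero_le_one).prod (isConnected_Ioo hpq)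
  have h2 := h1.image (fun z : E N × ℝ => z.2 • z.1)
    (continuous_snd.smul continuous_fst).continuousOn
  convert h2 using 1
  ext x
  simp only [Sh, mem_setOf_eq, mem_image, mem_prod, mem_sphere_iff_norm, sub_zero, mem_Ioo,
    Prod.exists]
  constructor
  · rintro ⟨h3, h4⟩
    have hx : ‖x‖ ≠ 0 := (hp.trans h3).ne'
    refine ⟨‖x‖⁻¹ • x, ‖x‖, ⟨?_, h3, h4⟩, ?_⟩
    · rw [norm_smul, norm_inv, norm_norm, inv_mul_cancel₀ hx]
    · rw [smul_smul, mul_inv_cancel₀ hx, one_smul]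
  · rintro ⟨u, t, ⟨hu, h3, h4⟩, rfl⟩
    rw [norm_smul, hu, mul_one, Real.norm_eq_abs, abs_of_pos (hp.trans h3)]
    exact ⟨h3, h4⟩

theorem isDom_shell {N : ℕ} (hN : 2 ≤ N) {p q : ℝ} (hp : 0 < p) (hpq : p < q) :
    IsDom (Sh N p q) := by
  refine ⟨isOpen_shell N p q, ?_, isConnected_shell hN hp hpq, ?_⟩
  · refine Metric.isBounded_ball (x := (0 : E N)) (r := q) |>.subset ?_
    intro x hx
    rw [mem_ball_zero_iff]
    exact hx.2
  · intro x hx
    rcases frontier_shell N p q hx with h | h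
    · exact ⟨_, normal_inner hp hpq h⟩
    · exact ⟨_, normal_outer hp hpq h⟩

lemma frontier_ball_E (N : ℕ) (r : ℝ) :
    frontier (Metric.ball (0 : E N) r) ⊆ {x | ‖x‖ = r} := by
  intro x hx
  have := Metric.frontier_ball_subset_sphere hx
  simpa using this

theorem isDom_ball {N : ℕ} (_hN : 1 ≤ N) {r : ℝ} (hr : 0 < r) :
    IsDom (Metric.ball (0 : E N) r) := by
  refine ⟨Metric.isOpen_ball, Metric.isBounded_ball, ?_, ?_⟩
  · exact (convex_ball (0 : E N) r).isConnected ⟨0, Metric.mem_ball_self hr⟩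
  · intro x hx
    exact ⟨_, normal_ball hr (frontier_ball_E N r hx)⟩

theorem shell_volume_lt {N : ℕ} (hN : 2 ≤ N) {p q : ℝ} (hp : 0 < p) (hpq : p < q) :
    ∃ r0 < q, ∀ r, r0 < r →
      volume (Sh N p q) < volume (Metric.ball (0 : E N) r) := by
  have hq : 0 < q := hp.trans hpq
  haveI : Nonempty (Fin N) := ⟨⟨0, by omega⟩⟩
  have hV0 : volume (Metric.ball (0 : E N) 1) ≠ 0 := (Metric.measure_ball_pos _ _ one_pos).ne'
  have hVt : volume (Metric.ball (0 : E N) 1) ≠ ⊤ := measure_ball_lt_top.ne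
  have hball : ∀ r : ℝ, 0 ≤ r → volume (Metric.ball (0 : E N) r)
      = ENNReal.ofReal (r ^ N) * volume (Metric.ball (0 : E N) 1) := by
    intro r hr
    have h := Measure.addHaar_ball (volume : Measure (E N)) 0 hr
    rwa [show Module.finrank ℝ (E N) = N by simp] at h
  have hcball : volume (Metric.closedBall (0 : E N) p)
      = ENNReal.ofReal (p ^ N) * volume (Metric.ball (0 : E N) 1) := by
    rw [Measure.addHaar_closedBall_eq_addHaar_ball, hball p hp.le]
  have hsh : volume (Sh N p q)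
      = ENNReal.ofReal (q ^ N - p ^ N) * volume (Metric.ball (0 : E N) 1) := by
    have h1 : Sh N p q = Metric.ball (0 : E N) q \ Metric.closedBall (0 : E N) p := by
      ext x
      simp only [Sh, mem_setOf_eq, mem_diff, mem_ball_zero_iff, mem_closedBall_zero_iff, not_le]
      tauto
    have h2 : Metric.closedBall (0 : E N) p ⊆ Metric.ball (0 : E N) q :=
      Metric.closedBall_subset_ball hpq
    rw [h1, measure_diff h2 Metric.isClosed_closedBall.nullMeasurableSet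
      measure_closedBall_lt_top.ne, hball q hq.le, hcball,
      ENNReal.ofReal_sub _ (pow_nonneg hp.le N), ENNReal.sub_mul (fun _ _ => hVt)]
  have hc : Continuous fun r : ℝ => r ^ N := continuous_pow N
  have hlt : q ^ N - p ^ N < q ^ N := by
    have := pow_pos hp N
    linarith
  have hev : ∀ᶠ r in 𝓝 q, q ^ N - p ^ N < r ^ N := hc.continuousAt.eventually_const_lt hlt
  have hev2 : ∀ᶠ r in 𝓝 q, 0 < r := lt_mem_nhds hq
  have hev3 := (hev.and hev2)
  have hev4 : ∀ᶠ r in 𝓝[<] q, (q ^ N - p ^ N < r ^ N ∧ 0 < r) ∧ r < q :=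
    (hev3.filter_mono nhdsWithin_le_nhds).and self_mem_nhdsWithin
  obtain ⟨r0, h0, h000⟩ := hev4.exists
  refine ⟨r0, h000, ?_⟩
  intro r hr
  rw [hsh, hball r (by linarith [h0.2])]
  refine ENNReal.mul_lt_mul_left hV0 hVt ?_
  rw [ENNReal.ofReal_lt_ofReal_iff_of_nonneg]
  · exact h0.1.trans_le (pow_le_pow_left₀ h0.2.le hr.le N)
  · have := pow_lt_pow_left₀ hpq hp.le (by omega : N ≠ 0)
    linarith

theorem not_subset {N : ℕ} (hN : 1 ≤ N) {p q r : ℝ} (hp : 0 < p) (hpq : p < q) (hr : r < q) :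
    ¬ Sh N p q ⊆ Metric.ball (0 : E N) r := by
  intro h
  obtain ⟨s, hs1, hs2⟩ := exists_between (max_lt hpq hr)
  have hsp : p < s := (le_max_left _ _).trans_lt hs1
  have hsr : r < s := (le_max_right _ _).trans_lt hs1
  have hs0 : 0 < s := hp.trans hsp
  have hn : ‖(EuclideanSpace.single (⟨0, by omega⟩ : Fin N) s : E N)‖ = s := by
    rw [EuclideanSpace.norm_single, Real.norm_eq_abs, abs_of_pos hs0]
  have hm : (EuclideanSpace.single (⟨0, by omega⟩ : Fin N) s : E N) ∈ Sh N p q := by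
    refine ⟨?_, ?_⟩
    · rw [hn]; exact hsp
    · rw [hn]; exact hs2
  have := h hm
  rw [mem_ball_zero_iff, hn] at this
  linarith

end Pool.Agent.Helper96.SR
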