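import Mathlib
import Pool.Agent.Helper96.SR.Defs

set_option autoImplicit false

open MeasureTheory Set Topology Filter
open scoped ContDiff

namespace Pool.Agent.Helper96.SR

noncomputable section

lemma hasFDerivAt_nrm {N : ℕ} {x : E N} (hx : x ≠ 0) :
    HasFDerivAt (fun y : E N => ‖y‖) (‖x‖⁻¹ • innerSL ℝ x) x := by
  have h1 : HasFDerivAt (fun y : E N => ‖y‖ ^ 2) (2 • (innerSL ℝ x)) x :=
    (hasStrictFDerivAt_norm_sq x).hasFDerivAt
  have hn : 0 < ‖x‖ := norm_pos_iff.2 hx
  have h2 := h1.sqrt (by positivity)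
  have h3 : (fun y : E N => Real.sqrt (‖y‖ ^ 2)) = fun y => ‖y‖ := by
    funext y
    exact Real.sqrt_sq (norm_nonneg y)
  rw [h3, Real.sqrt_sq hn.le] at h2
  have h4 : (‖x‖⁻¹ • innerSL ℝ x : E N →L[ℝ] ℝ) = (1 / (2 * ‖x‖)) • 2 • (innerSL ℝ x) := by
    ext v
    simp only [smul_apply, innerSL_apply_apply, smul_eq_mul, nsmul_eq_mul]
    field_simp
    push_cast
    ring
  rw [h4]
  exact h2

/-- the radial factor of the flux field -/
def kap (N : ℕ) (C : ℝ) (x : E N) : ℝ := -1 / N + C * (‖x‖ ^ N)⁻¹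

lemma hasFDerivAt_kap {N : ℕ} (hN : 1 ≤ N) {C : ℝ} {x : E N} (hx : C = 0 ∨ x ≠ 0) :
    HasFDerivAt (kap N C) ((-(N * C) * (‖x‖ ^ (N + 2))⁻¹) • innerSL ℝ x) x := by
  rcases hx with rfl | hx
  · have : kap N 0 = fun _ : E N => (-1 / N : ℝ) := by
      funext y; simp [kap]
    rw [this]
    simpa using hasFDerivAt_const (-1 / N : ℝ) x
  · have hn : 0 < ‖x‖ := norm_pos_iff.2 hx
    have h1 := hasFDerivAt_nrm hx
    have h2 : HasDerivAt (fun s : ℝ => (-1 / N : ℝ) + C * (s ^ N)⁻¹)
        (C * (-(N * ‖x‖ ^ (N - 1)) / (‖x‖ ^ N) ^ 2)) ‖x‖ := by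
      have h3 := ((hasDerivAt_pow N ‖x‖).inv (pow_ne_zero N hn.ne')).const_mul C
      exact h3.const_add _
    have h4 := h2.comp_hasFDerivAt x h1
    have h5 : ((-(N * C) * (‖x‖ ^ (N + 2))⁻¹) • innerSL ℝ x : E N →L[ℝ] ℝ) =
        (C * (-(N * ‖x‖ ^ (N - 1)) / (‖x‖ ^ N) ^ 2)) • ‖x‖⁻¹ • innerSL ℝ x := by
      rw [smul_smul]
      congr 1
      obtain ⟨m, rfl⟩ : ∃ m, N = m + 1 := ⟨N - 1, by omega⟩
      simp only [Nat.add_sub_cancel]
      field_simp
      ring
    rw [h5]
    exact h4

lemma cont_mul {N : ℕ} {g ψ : E N → ℝ} (hψ : Continuous ψ)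
    (hg : ∀ x ∈ tsupport ψ, ContinuousAt g x) : Continuous (fun x => g x * ψ x) := by
  apply continuous_of_tsupport
  intro x hx
  exact (hg x (tsupport_mul_subset_right hx)).mul hψ.continuousAt

lemma integrable_mul' {N : ℕ} {g ψ : E N → ℝ} (hψ : Continuous ψ) (hc : HasCompactSupport ψ)
    (hg : ∀ x ∈ tsupport ψ, ContinuousAt g x) : Integrable (fun x => g x * ψ x) :=
  (cont_mul hψ hg).integrable_of_hasCompactSupport hc.mul_left

lemma weak_eq {N : ℕ} (hN : 1 ≤ N) {C : ℝ} {φ : E N → ℝ} (hφ : ContDiff ℝ ∞ φ)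
    (hc : HasCompactSupport φ) (h0 : C = 0 ∨ (0 : E N) ∉ tsupport φ) :
    ∫ x, kap N C x * inner ℝ x (gradient φ x) = ∫ x, φ x := by
  have hNr : (0 : ℝ) < N := by exact_mod_cast hN
  have hx0 : ∀ x ∈ tsupport φ, C = 0 ∨ x ≠ 0 := by
    intro x hx
    rcases h0 with h | h
    · exact Or.inl h
    · right; rintro rfl; exact h hx
  have hφd : Differentiable ℝ φ := hφ.differentiable (by simp)
  have hφc : Continuous φ := hφ.continuous
  -- the components
  set e : Fin N → E N := fun i => EuclideanSpace.single i 1 with he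
  have hFd : ∀ i : Fin N, ∀ x : E N, (C = 0 ∨ x ≠ 0) →
      HasFDerivAt (fun y : E N => kap N C y * y i)
        (kap N C x • (EuclideanSpace.proj i : E N →L[ℝ] ℝ) +
          x i • ((-(N * C) * (‖x‖ ^ (N + 2))⁻¹) • innerSL ℝ x)) x := by
    intro i x hx
    have h1 := hasFDerivAt_kap hN hx
    have h2 : HasFDerivAt (fun y : E N => y i) (EuclideanSpace.proj i : E N →L[ℝ] ℝ) x :=
      (EuclideanSpace.proj i : E N →L[ℝ] ℝ).hasFDerivAt
    exact h1.mul h2
  have hdφ : ∀ i : Fin N, Continuous (fun x => fderiv ℝ φ x (e i)) := by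
    intro i
    exact (hφ.continuous_fderiv (by simp)).clm_apply continuous_const
  have hcdφ : ∀ i : Fin N, HasCompactSupport (fun x => fderiv ℝ φ x (e i)) := by
    intro i
    exact hc.fderiv_apply (𝕜 := ℝ) (e i)
  have hts : ∀ i : Fin N, tsupport (fun x => fderiv ℝ φ x (e i)) ⊆ tsupport φ := by
    intro i
    exact tsupport_fderiv_apply_subset ℝ (e i)
  -- continuity of the derivative of the components on the support
  have hdiv : ∀ i : Fin N, ∀ x ∈ tsupport φ, fderiv ℝ (fun y : E N => kap N C y * y i) x (e i) =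
      kap N C x + x i * (-(N * C) * (‖x‖ ^ (N + 2))⁻¹ * x i) := by
    intro i x hx
    rw [(hFd i x (hx0 x hx)).fderiv]
    simp [e, EuclideanSpace.inner_single_right]
  have hkc : ∀ x ∈ tsupport φ, ContinuousAt (kap N C) x := by
    intro x hx
    exact (hasFDerivAt_kap hN (hx0 x hx)).continuousAt
  have hnc : ∀ x ∈ tsupport φ, ContinuousAt (fun x : E N => -(N * C) * (‖x‖ ^ (N + 2))⁻¹) x := by
    intro x hx
    rcases hx0 x hx with h | h
    · subst h
      simp only [mul_zero, neg_zero, zero_mul]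
      exact continuousAt_const
    · have : ‖x‖ ^ (N + 2) ≠ 0 := pow_ne_zero _ (norm_ne_zero_iff.2 h)
      exact continuousAt_const.mul (((continuous_norm.pow _).continuousAt).inv₀ this)
  have hproj : ∀ i : Fin N, Continuous (fun y : E N => y i) := fun i =>
    (EuclideanSpace.proj i : E N →L[ℝ] ℝ).continuous
  have hi1 : ∀ i : Fin N, Integrable
      (fun x => fderiv ℝ (fun y : E N => kap N C y * y i) x (e i) * φ x) := by
    intro i
    have h1 : Integrable (fun x => (kap N C x + x i * (-(N * C) * (‖x‖ ^ (N + 2))⁻¹ * x i)) * φ x) := by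
      apply integrable_mul' hφc hc
      intro x hx
      exact (hkc x hx).add ((hproj i).continuousAt.mul ((hnc x hx).mul (hproj i).continuousAt))
    refine h1.congr (Eventually.of_forall fun x => ?_)
    show (kap N C x + x i * (-(N * C) * (‖x‖ ^ (N + 2))⁻¹ * x i)) * φ x =
      fderiv ℝ (fun y : E N => kap N C y * y i) x (e i) * φ x
    by_cases hx : x ∈ tsupport φ
    · rw [hdiv i x hx]
    · rw [image_eq_zero_of_notMem_tsupport hx]; simp
  have hi2 : ∀ i : Fin N, Integrable
      (fun x => (kap N C x * x i) * fderiv ℝ φ x (e i)) := by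
    intro i
    apply integrable_mul' (hdφ i) (hcdφ i)
    intro x hx
    exact (hkc x (hts i hx)).mul (hproj i).continuousAt
  have hi3 : ∀ i : Fin N, Integrable (fun x => (kap N C x * x i) * φ x) := by
    intro i
    apply integrable_mul' hφc hc
    intro x hx
    exact (hkc x hx).mul (hproj i).continuousAt
  have hpart : ∀ i : Fin N, ∫ x, (kap N C x * x i) * fderiv ℝ φ x (e i) =
      - ∫ x, fderiv ℝ (fun y : E N => kap N C y * y i) x (e i) * φ x := by
    intro i
    exact integral_mul_fderiv_eq_neg_fderiv_mul_of_integrable (hi1 i) (hi2 i) (hi3 i)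
      (fun x hx => (hFd i x (hx0 x hx)).differentiableAt) (fun x _ => hφd x)
  have hsum1 : ∀ x : E N, kap N C x * inner ℝ x (gradient φ x) =
      ∑ i, (kap N C x * x i) * fderiv ℝ φ x (e i) := by
    intro x
    have h1 : inner ℝ x (gradient φ x) = fderiv ℝ φ x x := by
      rw [real_inner_comm]
      exact inner_gradient_left
    have h2 : x = ∑ i, x i • e i := by
      simp only [e]
      ext j
      simp [Finset.sum_apply, Pi.single_apply]
    have h3 : fderiv ℝ φ x x = ∑ i, x i * fderiv ℝ φ x (e i) := by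
      have h4 : fderiv ℝ φ x (∑ i, x i • e i) = ∑ i, x i * fderiv ℝ φ x (e i) := by
        rw [map_sum]
        simp
      rw [← h4, ← h2]
    rw [h1, h3, Finset.mul_sum]
    exact Finset.sum_congr rfl fun i _ => by ring
  have hsum2 : ∀ x : E N, ∑ i, fderiv ℝ (fun y : E N => kap N C y * y i) x (e i) * φ x = - φ x := by
    intro x
    by_cases hx : x ∈ tsupport φ
    · have h1 : ∀ i : Fin N, fderiv ℝ (fun y : E N => kap N C y * y i) x (e i) * φ x =
          kap N C x * φ x + (-(N * C) * (‖x‖ ^ (N + 2))⁻¹ * φ x) * (x i) ^ 2 := by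
        intro i
        rw [hdiv i x hx]; ring
      rw [Finset.sum_congr rfl fun i _ => h1 i, Finset.sum_add_distrib,
        ← Finset.mul_sum Finset.univ (fun i => (x i) ^ 2)]
      have h2 : ∑ i, (x i) ^ 2 = ‖x‖ ^ 2 := by
        rw [EuclideanSpace.norm_sq_eq]
        simp
      rw [h2]
      simp only [Finset.sum_const, Finset.card_univ, Fintype.card_fin, nsmul_eq_mul]
      rcases hx0 x hx with h | h
      · subst h
        simp only [kap]
        field_simp
        ring
      · have hn : 0 < ‖x‖ := norm_pos_iff.2 h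
        simp only [kap]
        field_simp
        ring
    · simp [image_eq_zero_of_notMem_tsupport hx]
  calc ∫ x, kap N C x * inner ℝ x (gradient φ x)
      = ∫ x, ∑ i, (kap N C x * x i) * fderiv ℝ φ x (e i) := by
        congr 1; funext x; exact hsum1 x
    _ = ∑ i, ∫ x, (kap N C x * x i) * fderiv ℝ φ x (e i) :=
        integral_finsetSum _ fun i _ => hi2 i
    _ = ∑ i, - ∫ x, fderiv ℝ (fun y : E N => kap N C y * y i) x (e i) * φ x :=
        Finset.sum_congr rfl fun i _ => hpart i
    _ = - ∑ i, ∫ x, fderiv ℝ (fun y : E N => kap N C y * y i) x (e i) * φ x := by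
        rw [Finset.sum_neg_distrib]
    _ = - ∫ x, ∑ i, fderiv ℝ (fun y : E N => kap N C y * y i) x (e i) * φ x := by
        rw [integral_finsetSum _ fun i _ => hi1 i]
    _ = - ∫ x, - φ x := by
        congr 2; funext x; exact hsum2 x
    _ = ∫ x, φ x := by
        rw [integral_neg, neg_neg]

end

end Pool.Agent.Helper96.SR
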