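import Mathlib
import Pool.Agent.Helper96.SR.Defs
import Pool.Agent.Helper96.SR.Weak

set_option autoImplicit false

open MeasureTheory Set Topology Filter
open scoped ContDiff

namespace Pool.Agent.Helper96.SR

noncomputable section

/-- the radial slope -/
def hh (f : ℝ → ℝ) (t r1 a b r2 : ℝ) (s : ℝ) : ℝ :=
  (Ioo r1 r2).indicator f s + t * (Ioo a b).indicator f s

/-- the radial solution -/
def uu {N : ℕ} (f : ℝ → ℝ) (t r1 a b r2 : ℝ) (x : E N) : ℝ := ∫ s in r2..‖x‖, hh f t r1 a b r2 s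

section basic

variable {f : ℝ → ℝ} {t r1 a b r2 : ℝ}

lemma integrable_ind {p q : ℝ} (hf : ContinuousOn f (Icc p q)) :
    Integrable ((Ioo p q).indicator f) := by
  rw [integrable_indicator_iff measurableSet_Ioo]
  exact (hf.integrableOn_Icc).mono_set Ioo_subset_Icc_self

lemma integrable_hh (h1 : r1 < a) (h2 : a < b) (h3 : b < r2) (hf : ContinuousOn f (Icc r1 r2)) :
    Integrable (hh f t r1 a b r2) := by
  have h4 : ContinuousOn f (Icc a b) := hf.mono (Icc_subset_Icc h1.le h3.le)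
  exact (integrable_ind hf).add ((integrable_ind h4).const_mul t)

lemma bound_hh (h1 : r1 < a) (h2 : a < b) (h3 : b < r2) (hf : ContinuousOn f (Icc r1 r2)) :
    ∃ M : ℝ, 0 ≤ M ∧ ∀ s, ‖hh f t r1 a b r2 s‖ ≤ M := by
  obtain ⟨M, hM⟩ := isCompact_Icc.exists_bound_of_continuousOn hf
  have hM0 : 0 ≤ M := (norm_nonneg _).trans (hM r1 (by simp; linarith))
  refine ⟨M + |t| * M, by positivity, fun s => ?_⟩
  have e1 : ‖(Ioo r1 r2).indicator f s‖ ≤ M := by
    by_cases hs : s ∈ Ioo r1 r2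
    · rw [indicator_of_mem hs]; exact hM s (Ioo_subset_Icc_self hs)
    · rw [indicator_of_notMem hs]; simpa using hM0
  have e2 : ‖(Ioo a b).indicator f s‖ ≤ M := by
    by_cases hs : s ∈ Ioo a b
    · rw [indicator_of_mem hs]
      exact hM s ⟨h1.le.trans hs.1.le, hs.2.le.trans h3.le⟩
    · rw [indicator_of_notMem hs]; simpa using hM0
  calc ‖hh f t r1 a b r2 s‖ ≤ ‖(Ioo r1 r2).indicator f s‖ + ‖t * (Ioo a b).indicator f s‖ :=
        norm_add_le _ _
    _ ≤ M + |t| * M := by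
        rw [norm_mul, Real.norm_eq_abs t]
        gcongr

lemma lip_uu {N : ℕ} (h1 : r1 < a) (h2 : a < b) (h3 : b < r2) (hf : ContinuousOn f (Icc r1 r2)) :
    ∃ L, LipschitzWith L (uu f t r1 a b r2 : E N → ℝ) := by
  obtain ⟨M, hM0, hM⟩ := bound_hh (t := t) h1 h2 h3 hf
  have hi := integrable_hh (t := t) h1 h2 h3 hf
  refine ⟨⟨M, hM0⟩, LipschitzWith.of_dist_le_mul fun x y => ?_⟩
  rw [Real.dist_eq]
  have e1 : uu f t r1 a b r2 x - uu f t r1 a b r2 y = ∫ s in ‖y‖..‖x‖, hh f t r1 a b r2 s := by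
    unfold uu
    rw [intervalIntegral.integral_interval_sub_left hi.intervalIntegrable hi.intervalIntegrable]
  rw [e1]
  have e2 := intervalIntegral.norm_integral_le_of_norm_le_const
    (a := ‖y‖) (b := ‖x‖) (f := hh f t r1 a b r2) (C := M) (fun s _ => hM s)
  rw [Real.norm_eq_abs] at e2
  refine e2.trans ?_
  show M * |‖x‖ - ‖y‖| ≤ M * dist x y
  rw [dist_eq_norm]
  gcongr
  exact abs_norm_sub_norm_le x y

lemma hh_right {s : ℝ} (h1 : r1 < a) (h2 : a < b) (h3 : b < r2) (hs : b < s) (hs2 : s < r2) :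
    hh f t r1 a b r2 s = f s := by
  unfold hh
  rw [indicator_of_mem (by constructor <;> linarith), indicator_of_notMem (fun h => by
    have := h.2; linarith)]
  ring

lemma hh_left {s : ℝ} (h1 : r1 < a) (h2 : a < b) (h3 : b < r2) (hs : r1 < s) (hs2 : s < a) :
    hh f t r1 a b r2 s = f s := by
  unfold hh
  rw [indicator_of_mem (by constructor <;> linarith), indicator_of_notMem (fun h => by
    have := h.1; linarith)]
  ring

lemma hh_mid {s : ℝ} (h1 : r1 < a) (h2 : a < b) (h3 : b < r2) (hs : a < s) (hs2 : s < b) :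
    hh f t r1 a b r2 s = f s + t * f s := by
  unfold hh
  rw [indicator_of_mem (by constructor <;> linarith), indicator_of_mem (by constructor <;> linarith)]

lemma hh_out_right {s : ℝ} (h1 : r1 < a) (h2 : a < b) (h3 : b < r2) (hs : r2 < s) :
    hh f t r1 a b r2 s = 0 := by
  unfold hh
  rw [indicator_of_notMem (fun h => by have := h.2; linarith), indicator_of_notMem (fun h => by
    have := h.2; linarith)]
  ring

lemma hh_out_left {s : ℝ} (h1 : r1 < a) (h2 : a < b) (h3 : b < r2) (hs : s < r1) :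
    hh f t r1 a b r2 s = 0 := by
  unfold hh
  rw [indicator_of_notMem (fun h => by have := h.1; linarith), indicator_of_notMem (fun h => by
    have := h.1; linarith)]
  ring

lemma ii_congr {F G : ℝ → ℝ} {p q : ℝ} (hpq : p ≤ q) (h : ∀ s ∈ Ioo p q, F s = G s) :
    ∫ s in p..q, F s = ∫ s in p..q, G s := by
  rw [intervalIntegral.integral_of_le hpq, intervalIntegral.integral_of_le hpq,
    integral_Ioc_eq_integral_Ioo, integral_Ioc_eq_integral_Ioo]
  exact setIntegral_congr_fun measurableSet_Ioo h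

lemma int_total (h1 : r1 < a) (h2 : a < b) (h3 : b < r2) (hf : ContinuousOn f (Icc r1 r2)) :
    ∫ s in r1..r2, hh f t r1 a b r2 s = (∫ s in r1..r2, f s) + t * ∫ s in a..b, f s := by
  have h4 : ContinuousOn f (Icc a b) := hf.mono (Icc_subset_Icc h1.le h3.le)
  have e1 : ∫ s in r1..r2, hh f t r1 a b r2 s = (∫ s in r1..r2, (Ioo r1 r2).indicator f s)
      + t * ∫ s in r1..r2, (Ioo a b).indicator f s := by
    unfold hh
    rw [intervalIntegral.integral_add (integrable_ind hf).intervalIntegrable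
      ((integrable_ind h4).const_mul t).intervalIntegrable, intervalIntegral.integral_const_mul]
  rw [e1]
  congr 1
  · exact ii_congr (by linarith) fun s hs => indicator_of_mem hs f
  · congr 1
    rw [intervalIntegral.integral_of_le (by linarith : r1 ≤ r2), intervalIntegral.integral_of_le h2.le,
      setIntegral_indicator measurableSet_Ioo, integral_Ioc_eq_integral_Ioo]
    congr 2
    ext s
    simp only [mem_inter_iff, mem_Ioc, mem_Ioo]
    constructor
    · rintro ⟨_, h⟩; exact h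
    · rintro ⟨h5, h6⟩; exact ⟨⟨by linarith, by linarith⟩, h5, h6⟩

lemma uu_right {N : ℕ} (h1 : r1 < a) (h2 : a < b) (h3 : b < r2) {x : E N} (hx : b < ‖x‖)
    (hx2 : ‖x‖ ≤ r2) : uu f t r1 a b r2 x = ∫ s in r2..‖x‖, f s := by
  unfold uu
  rw [intervalIntegral.integral_symm, intervalIntegral.integral_symm ‖x‖ r2]
  congr 1
  exact ii_congr hx2 fun s hs => hh_right h1 h2 h3 (hx.trans hs.1) hs.2

lemma uu_out_right {N : ℕ} (h1 : r1 < a) (h2 : a < b) (h3 : b < r2) {x : E N} (hx2 : r2 ≤ ‖x‖) :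
    uu f t r1 a b r2 x = 0 := by
  unfold uu
  rw [ii_congr (G := fun _ => 0) hx2 fun s hs => hh_out_right h1 h2 h3 hs.1]
  simp

lemma uu_left {N : ℕ} (h1 : r1 < a) (h2 : a < b) (h3 : b < r2) (hf : ContinuousOn f (Icc r1 r2))
    (h0 : (∫ s in r1..r2, f s) + t * ∫ s in a..b, f s = 0)
    {x : E N} (hx : r1 ≤ ‖x‖) (hx2 : ‖x‖ < a) : uu f t r1 a b r2 x = ∫ s in r1..‖x‖, f s := by
  have hi := integrable_hh (t := t) h1 h2 h3 hf
  unfold uu
  rw [← intervalIntegral.integral_add_adjacent_intervals (b := r1) hi.intervalIntegrable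
    hi.intervalIntegrable, intervalIntegral.integral_symm, int_total h1 h2 h3 hf, h0, neg_zero,
    zero_add]
  exact ii_congr hx fun s hs => hh_left h1 h2 h3 hs.1 (hs.2.trans hx2)

lemma uu_out_left {N : ℕ} (h1 : r1 < a) (h2 : a < b) (h3 : b < r2) (hf : ContinuousOn f (Icc r1 r2))
    (h0 : (∫ s in r1..r2, f s) + t * ∫ s in a..b, f s = 0)
    {x : E N} (hx : ‖x‖ ≤ r1) : uu f t r1 a b r2 x = 0 := by
  have hi := integrable_hh (t := t) h1 h2 h3 hf
  unfold uu
  rw [← intervalIntegral.integral_add_adjacent_intervals (b := r1) hi.intervalIntegrable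
    hi.intervalIntegrable, intervalIntegral.integral_symm, int_total h1 h2 h3 hf, h0, neg_zero,
    zero_add, intervalIntegral.integral_symm]
  rw [ii_congr (G := fun _ => 0) hx fun s hs => hh_out_left h1 h2 h3 hs.2]
  simp

lemma cont_ind {p q s : ℝ} (hf : ContinuousOn f (Icc p q)) (hp : s ≠ p) (hq : s ≠ q) :
    ContinuousAt ((Ioo p q).indicator f) s := by
  by_cases hs : s ∈ Ioo p q
  · have e1 : (Ioo p q).indicator f =ᶠ[𝓝 s] f := by
      filter_upwards [isOpen_Ioo.mem_nhds hs] with y hy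
      exact indicator_of_mem hy f
    rw [continuousAt_congr e1]
    exact hf.continuousAt (Icc_mem_nhds hs.1 hs.2)
  · have hs2 : s ∈ (Icc p q)ᶜ := by
      intro h
      exact hs ⟨lt_of_le_of_ne h.1 (Ne.symm hp), lt_of_le_of_ne h.2 hq⟩
    have e1 : (Ioo p q).indicator f =ᶠ[𝓝 s] fun _ => 0 := by
      filter_upwards [isClosed_Icc.isOpen_compl.mem_nhds hs2] with y hy
      exact indicator_of_notMem (fun h => hy (Ioo_subset_Icc_self h)) f
    rw [continuousAt_congr e1]
    exact continuousAt_const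

lemma cont_hh {s : ℝ} (h1 : r1 < a) (h2 : a < b) (h3 : b < r2) (hf : ContinuousOn f (Icc r1 r2))
    (hs1 : s ≠ r1) (hs2 : s ≠ a) (hs3 : s ≠ b) (hs4 : s ≠ r2) :
    ContinuousAt (hh f t r1 a b r2) s := by
  have h4 : ContinuousOn f (Icc a b) := hf.mono (Icc_subset_Icc h1.le h3.le)
  exact (cont_ind hf hs1 hs4).add (continuousAt_const.mul (cont_ind h4 hs2 hs3))

lemma fderiv_rad {N : ℕ} {g : ℝ → ℝ} {R : ℝ} {x : E N} (hx : x ≠ 0)
    (hg : HasDerivAt (fun s => ∫ u in R..s, g u) (g ‖x‖) ‖x‖) :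
    HasFDerivAt (fun y : E N => ∫ u in R..‖y‖, g u) ((g ‖x‖ * ‖x‖⁻¹) • innerSL ℝ x) x := by
  have h1 := hg.comp_hasFDerivAt x (hasFDerivAt_nrm hx)
  rw [smul_smul] at h1
  exact h1

lemma grad_uu {N : ℕ} (h1 : r1 < a) (h2 : a < b) (h3 : b < r2) (hf : ContinuousOn f (Icc r1 r2))
    {x : E N} (hx : x ≠ 0) (hs1 : ‖x‖ ≠ r1) (hs2 : ‖x‖ ≠ a) (hs3 : ‖x‖ ≠ b) (hs4 : ‖x‖ ≠ r2) :
    gradient (uu f t r1 a b r2) x = (hh f t r1 a b r2 ‖x‖ * ‖x‖⁻¹) • x := by
  have hi := integrable_hh (t := t) h1 h2 h3 hf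
  have hc := cont_hh (t := t) h1 h2 h3 hf hs1 hs2 hs3 hs4
  have hd : HasDerivAt (fun s => ∫ u in r2..s, hh f t r1 a b r2 u) (hh f t r1 a b r2 ‖x‖) ‖x‖ :=
    intervalIntegral.integral_hasDerivAt_right hi.intervalIntegrable
      hi.aestronglyMeasurable.stronglyMeasurableAtFilter hc
  have hd2 := fderiv_rad hx hd
  have hd3 : HasFDerivAt (uu f t r1 a b r2)
      ((hh f t r1 a b r2 ‖x‖ * ‖x‖⁻¹) • innerSL ℝ x : E N →L[ℝ] ℝ) x := hd2
  rw [gradient, hd3.fderiv, LinearIsometryEquiv.symm_apply_eq]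
  ext y
  simp [InnerProductSpace.toDual_apply_apply, inner_smul_left]

end basic

end

end Pool.Agent.Helper96.SR
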