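import Mathlib
import Pool.Agent.Helper96.SR.Radial

set_option autoImplicit false

open MeasureTheory Set Topology Filter
open scoped ContDiff

namespace Pool.Agent.Helper96.SR

noncomputable section

lemma ff_smooth (N : ℕ) (C : ℝ) : ContDiffOn ℝ ∞ (ff N C) (Ioi 0) := by
  unfold ff
  apply ContDiffOn.add
  · exact (contDiff_neg.div_const _).contDiffOn
  · apply ContDiffOn.div contDiffOn_const (contDiff_id.pow _).contDiffOn
    intro x hx
    exact pow_ne_zero _ (ne_of_gt hx)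

lemma ff_cont (N : ℕ) {C r1 r2 : ℝ} (h : C = 0 ∨ 0 < r1) : ContinuousOn (ff N C) (Icc r1 r2) := by
  rcases h with rfl | h
  · unfold ff
    simp only [zero_div, add_zero]
    exact (continuous_neg.div_const _).continuousOn
  · exact (ff_smooth N C).continuousOn.mono fun s hs => lt_of_lt_of_le h hs.1

lemma V_smooth {f : ℝ → ℝ} (hf : ContDiffOn ℝ ∞ f (Ioi 0)) {R : ℝ} (hR : 0 < R) :
    (∀ s, 0 < s → HasDerivAt (fun s => ∫ u in R..s, f u) (f s) s) ∧
    ContDiffOn ℝ ∞ (fun s => ∫ u in R..s, f u) (Ioi 0) := by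
  have hd : ∀ s, 0 < s → HasDerivAt (fun s => ∫ u in R..s, f u) (f s) s := by
    intro s hs
    have hc : ContinuousOn f (uIcc R s) := hf.continuousOn.mono fun y hy => by
      have := hy.1
      exact lt_of_lt_of_le (lt_min hR hs) this
    have h2 : StronglyMeasurableAtFilter f (𝓝 s) :=
      hf.continuousOn.stronglyMeasurableAtFilter isOpen_Ioi s hs
    exact intervalIntegral.integral_hasDerivAt_right hc.intervalIntegrable h2
      (hf.continuousOn.continuousAt (Ioi_mem_nhds hs))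
  refine ⟨hd, ?_⟩
  rw [contDiffOn_infty_iff_deriv_of_isOpen isOpen_Ioi]
  refine ⟨fun s hs => (hd s hs).differentiableAt.differentiableWithinAt, ?_⟩
  exact hf.congr fun s hs => (hd s hs).deriv

/-- the weak equation -/
lemma weak_uu {N : ℕ} (hN : 1 ≤ N) {σc C r1 a b r2 : ℝ} (hσ : 0 < σc) (h1 : r1 < a)
    (h2 : a < b) (h3 : b < r2) (hC : C = 0 ∨ 0 < r1) (hr1 : 0 ≤ r1) {Ω : Set (E N)}
    (hO : MeasurableSet Ω) (hΩ : ∀ x ∈ Ω, x ≠ 0 → r1 ≤ ‖x‖ ∧ ‖x‖ ≤ r2) (hΩ0 : C = 0 ∨ (0 : E N) ∉ Ω)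
    {φ : E N → ℝ} (hφ : ContDiff ℝ ∞ φ) (hc : HasCompactSupport φ) (hs : tsupport φ ⊆ Ω) :
    ∫ x in Ω, coef σc (Sh N a b) x *
      inner ℝ (gradient (uu (ff N C) (1 / σc - 1) r1 a b r2) x) (gradient φ x) = ∫ x in Ω, φ x := by
  have hf := ff_cont N (r2 := r2) hC
  have : Nonempty (Fin N) := ⟨⟨0, by omega⟩⟩
  have hgz : ∀ x : E N, x ∉ Ω → gradient φ x = 0 := by
    intro x hx
    have h4 : x ∉ tsupport φ := fun h => hx (hs h)
    have h5 : fderiv ℝ φ x = 0 := by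
      by_contra h6
      exact h4 (support_fderiv_subset ℝ h6)
    rw [gradient, h5]; simp
  have hz : ∀ x : E N, x ∉ Ω → φ x = 0 := by
    intro x hx
    exact image_eq_zero_of_notMem_tsupport fun h => hx (hs h)
  rw [setIntegral_eq_integral_of_forall_compl_eq_zero (fun x hx => hz x hx)]
  have hw := weak_eq hN (C := C) hφ hc (by
    rcases hΩ0 with h | h
    · exact Or.inl h
    · exact Or.inr fun h' => h (hs h'))
  have hw2 : ∫ x in Ω, kap N C x * inner ℝ x (gradient φ x) =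
      ∫ x, kap N C x * inner ℝ x (gradient φ x) :=
    setIntegral_eq_integral_of_forall_compl_eq_zero (fun x hx => by rw [hgz x hx]; simp)
  rw [← hw, ← hw2]
  have hsph : ∀ r : ℝ, ∀ᵐ x : E N, ‖x‖ ≠ r := by
    intro r
    have h4 : volume (Metric.sphere (0 : E N) r) = 0 := Measure.addHaar_sphere volume 0 r
    rw [ae_iff]
    convert h4 using 2
    ext x; simp
  apply integral_congr_ae
  filter_upwards [ae_restrict_of_ae (hsph 0), ae_restrict_of_ae (hsph r1),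
    ae_restrict_of_ae (hsph a), ae_restrict_of_ae (hsph b), ae_restrict_of_ae (hsph r2),
    ae_restrict_mem hO] with x e0 e1 ea eb e2 hx
  have hx0 : x ≠ 0 := norm_ne_zero_iff.1 e0
  have hn : 0 < ‖x‖ := norm_pos_iff.2 hx0
  obtain ⟨l1, l2⟩ := hΩ x hx hx0
  have l1' : r1 < ‖x‖ := lt_of_le_of_ne l1 (Ne.symm e1)
  have l2' : ‖x‖ < r2 := lt_of_le_of_ne l2 e2
  rw [grad_uu h1 h2 h3 hf hx0 e1 ea eb e2, real_inner_smul_left]
  have key : coef σc (Sh N a b) x * hh (ff N C) (1 / σc - 1) r1 a b r2 ‖x‖ = ff N C ‖x‖ := by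
    rcases lt_or_gt_of_ne ea with h | h
    · rw [hh_left h1 h2 h3 l1' h]
      have : x ∉ Sh N a b := fun h' => by have := h'.1; linarith
      simp [coef, this]
    · rcases lt_or_gt_of_ne eb with h' | h'
      · rw [hh_mid h1 h2 h3 h h']
        have : x ∈ Sh N a b := ⟨h, h'⟩
        simp only [coef, this, if_true]
        field_simp
        ring
      · rw [hh_right h1 h2 h3 h' l2']
        have : x ∉ Sh N a b := fun h'' => by have := h''.2; linarith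
        simp [coef, this]
  have key2 : ff N C ‖x‖ * ‖x‖⁻¹ = kap N C x := by
    obtain ⟨m, rfl⟩ : ∃ m, N = m + 1 := ⟨N - 1, by omega⟩
    unfold ff kap
    simp only [Nat.add_sub_cancel]
    field_simp
    ring
  calc coef σc (Sh N a b) x * (hh (ff N C) (1 / σc - 1) r1 a b r2 ‖x‖ * ‖x‖⁻¹ *
        inner ℝ x (gradient φ x))
      = (coef σc (Sh N a b) x * hh (ff N C) (1 / σc - 1) r1 a b r2 ‖x‖) * ‖x‖⁻¹ *
        inner ℝ x (gradient φ x) := by ring
    _ = kap N C x * inner ℝ x (gradient φ x) := by rw [key, key2]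

/-- a radial function in a punctured neighbourhood, smooth with explicit derivative -/
lemma rad_smooth {N : ℕ} {f : ℝ → ℝ} (hf : ContDiffOn ℝ ∞ f (Ioi 0)) {R : ℝ} (hR : 0 < R) :
    ContDiffOn ℝ ∞ (fun y : E N => ∫ u in R..‖y‖, f u) {y | y ≠ 0} ∧
    ∀ x : E N, x ≠ 0 → HasFDerivAt (fun y : E N => ∫ u in R..‖y‖, f u)
      ((f ‖x‖ * ‖x‖⁻¹) • innerSL ℝ x) x := by
  obtain ⟨h1, h2⟩ := V_smooth hf hR
  refine ⟨?_, fun x hx => fderiv_rad hx (h1 _ (norm_pos_iff.2 hx))⟩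
  intro x hx
  have hx' : x ≠ 0 := hx
  have h3 : ContDiffAt ℝ ∞ (fun s => ∫ u in R..s, f u) ‖x‖ :=
    h2.contDiffAt (Ioi_mem_nhds (norm_pos_iff.2 hx'))
  exact (h3.comp x (contDiffAt_norm ℝ hx')).contDiffWithinAt

lemma normal_right {N : ℕ} {f : ℝ → ℝ} {t r1 a b r2 : ℝ} (hf : ContDiffOn ℝ ∞ f (Ioi 0))
    (h0 : 0 < a) (h1 : r1 < a) (h2 : a < b) (h3 : b < r2) {Ω : Set (E N)}
    (hΩ : ∀ x ∈ Ω, ‖x‖ ≤ r2) {x : E N} (hx : ‖x‖ = r2) (hν : IsNormal Ω x (‖x‖⁻¹ • x)) :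
    NormalDeriv Ω (uu f t r1 a b r2) x (f r2) := by
  have hr2 : 0 < r2 := by linarith
  have hx0 : x ≠ 0 := by rintro rfl; simp at hx; linarith
  obtain ⟨hs1, hs2⟩ := rad_smooth (N := N) hf hr2
  refine ⟨{y | b < ‖y‖}, fun y => ∫ u in r2..‖y‖, f u, isOpen_lt continuous_const continuous_norm,
    by show b < ‖x‖; rw [hx]; exact h3, hs1.mono ?_, ?_, ‖x‖⁻¹ • x, hν, ?_⟩
  · intro y hy
    have : b < ‖y‖ := hy
    rintro rfl
    simp at this
    linarith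
  · rintro y ⟨hy, hyΩ⟩
    exact uu_right h1 h2 h3 hy (hΩ y hyΩ)
  · rw [(hs2 x hx0).fderiv]
    have hn : 0 < ‖x‖ := norm_pos_iff.2 hx0
    simp only [smul_apply, innerSL_apply_apply, smul_eq_mul, inner_smul_right,
      real_inner_self_eq_norm_sq]
    rw [hx]
    field_simp

lemma normal_left {N : ℕ} {f : ℝ → ℝ} {t r1 a b r2 : ℝ} (hf : ContDiffOn ℝ ∞ f (Ioi 0))
    (hr1 : 0 < r1) (h1 : r1 < a) (h2 : a < b) (h3 : b < r2)
    (h0 : (∫ s in r1..r2, f s) + t * ∫ s in a..b, f s = 0) {Ω : Set (E N)}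
    (hΩ : ∀ x ∈ Ω, r1 ≤ ‖x‖) {x : E N} (hx : ‖x‖ = r1) (hν : IsNormal Ω x (-(‖x‖⁻¹ • x))) :
    NormalDeriv Ω (uu f t r1 a b r2) x (- f r1) := by
  have hx0 : x ≠ 0 := by rintro rfl; simp at hx; linarith
  obtain ⟨hs1, hs2⟩ := rad_smooth (N := N) hf hr1
  have hfc : ContinuousOn f (Icc r1 r2) := hf.continuousOn.mono fun s hs => lt_of_lt_of_le hr1 hs.1
  refine ⟨{y | 0 < ‖y‖ ∧ ‖y‖ < a}, fun y => ∫ u in r1..‖y‖, f u,
    (isOpen_lt continuous_const continuous_norm).inter (isOpen_lt continuous_norm continuous_const),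
    ⟨by rw [hx]; exact hr1, by rw [hx]; exact h1⟩, hs1.mono ?_, ?_, -(‖x‖⁻¹ • x), hν, ?_⟩
  · intro y hy
    have : 0 < ‖y‖ := hy.1
    exact norm_pos_iff.1 this
  · rintro y ⟨hy, hyΩ⟩
    exact uu_left h1 h2 h3 hfc h0 (hΩ y hyΩ) hy.2
  · rw [(hs2 x hx0).fderiv]
    have hn : 0 < ‖x‖ := norm_pos_iff.2 hx0
    simp only [smul_apply, innerSL_apply_apply, smul_eq_mul, inner_smul_right, inner_neg_right,
      real_inner_self_eq_norm_sq]
    rw [hx]
    field_simp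

/-- the shell solution -/
theorem isSol_shell {N : ℕ} (hN : 2 ≤ N) {σc C r1 a b r2 : ℝ} (hσ : 0 < σc) (hr1 : 0 < r1)
    (h1 : r1 < a) (h2 : a < b) (h3 : b < r2) (hff : ff N C r2 = - ff N C r1)
    (h0 : (∫ s in r1..r2, ff N C s) + (1 / σc - 1) * ∫ s in a..b, ff N C s = 0)
    (hcl : closure (Sh N a b) ⊆ {x | a ≤ ‖x‖ ∧ ‖x‖ ≤ b})
    (hfr : frontier (Sh N r1 r2) ⊆ {x | ‖x‖ = r1 ∨ ‖x‖ = r2})
    (hn1 : ∀ x : E N, ‖x‖ = r2 → IsNormal (Sh N r1 r2) x (‖x‖⁻¹ • x))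
    (hn2 : ∀ x : E N, ‖x‖ = r1 → IsNormal (Sh N r1 r2) x (-(‖x‖⁻¹ • x))) :
    IsSol σc (Sh N a b) (Sh N r1 r2) := by
  have hf := ff_cont N (C := C) (r2 := r2) (Or.inr hr1)
  have hopen : IsOpen (Sh N r1 r2) :=
    (isOpen_lt continuous_const continuous_norm).inter (isOpen_lt continuous_norm continuous_const)
  refine ⟨fun x hx => ?_, ff N C r2, uu (ff N C) (1 / σc - 1) r1 a b r2,
    lip_uu h1 h2 h3 hf, fun x hx => ?_, fun φ hφ hc hs => ?_, fun x hx => ?_⟩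
  · have := hcl hx
    exact ⟨lt_of_lt_of_le h1 this.1, lt_of_le_of_lt this.2 h3⟩
  · by_cases h : ‖x‖ ≤ r1
    · exact uu_out_left h1 h2 h3 hf h0 h
    · apply uu_out_right h1 h2 h3
      by_contra h'
      exact hx ⟨by linarith, by linarith⟩
  · exact weak_uu (by omega) hσ h1 h2 h3 (Or.inr hr1) hr1.le hopen.measurableSet
      (fun x hx _ => ⟨hx.1.le, hx.2.le⟩) (Or.inr fun h => by
        have := h.1
        simp at this
        linarith) hφ hc hs
  · rcases hfr hx with h | h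
    · rw [hff]
      exact normal_left (ff_smooth N C) hr1 h1 h2 h3 h0 (fun y hy => hy.1.le) h (hn2 x h)
    · exact normal_right (ff_smooth N C) (by linarith) h1 h2 h3 (fun y hy => hy.2.le) h (hn1 x h)

/-- the ball solution -/
theorem isSol_ball {N : ℕ} (hN : 2 ≤ N) {σc a b r : ℝ} (hσ : 0 < σc)
    (h1 : 0 < a) (h2 : a < b) (h3 : b < r)
    (hcl : closure (Sh N a b) ⊆ {x | a ≤ ‖x‖ ∧ ‖x‖ ≤ b})
    (hn1 : ∀ x : E N, ‖x‖ = r → IsNormal (Metric.ball (0 : E N) r) x (‖x‖⁻¹ • x)) :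
    IsSol σc (Sh N a b) (Metric.ball (0 : E N) r) := by
  have hf := ff_cont N (C := 0) (r1 := 0) (r2 := r) (Or.inl rfl)
  refine ⟨fun x hx => ?_, ff N 0 r, uu (ff N 0) (1 / σc - 1) 0 a b r,
    lip_uu h1 h2 h3 hf, fun x hx => ?_, fun φ hφ hc hs => ?_, fun x hx => ?_⟩
  · have := hcl hx
    rw [mem_ball_zero_iff]
    exact lt_of_le_of_lt this.2 h3
  · apply uu_out_right h1 h2 h3
    rw [mem_ball_zero_iff] at hx
    linarith
  · exact weak_uu (by omega) hσ h1 h2 h3 (Or.inl rfl) le_rfl Metric.isOpen_ball.measurableSet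
      (fun x hx _ => ⟨norm_nonneg x, (mem_ball_zero_iff.1 hx).le⟩) (Or.inl rfl) hφ hc hs
  · have hxr : ‖x‖ = r := by
      have := Metric.frontier_ball_subset_sphere hx
      simpa using this
    exact normal_right (ff_smooth N 0) h1 h1 h2 h3 (fun y hy => (mem_ball_zero_iff.1 hy).le) hxr
      (hn1 x hxr)

end

end Pool.Agent.Helper96.SR
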