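import Mathlib
import Pool.Agent.Helper96.SR.Sol
import Pool.Agent.Helper96.SR.Param
import Pool.Agent.Helper96.SR.Sets

set_option autoImplicit false

open MeasureTheory Set Topology Filter
open scoped ContDiff

namespace Pool.Agent.Helper96.SR

/-- for every dimension `N ≥ 2` and every conductivity `σc ≠ 1` there is a core `D` with two
solutions of the outer problem that are not ordered by inclusion -/
theorem outer_not_ordered (N : ℕ) (hN : 2 ≤ N) (σc : ℝ) (hσ : 0 < σc) (hσ1 : σc ≠ 1) :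
    ∃ D Ω₁ Ω₂ : Set (E N), IsDom D ∧ IsDom Ω₁ ∧ IsDom Ω₂ ∧ IsSol σc D Ω₁ ∧ IsSol σc D Ω₂ ∧
      volume Ω₁ < volume Ω₂ ∧ ¬ Ω₁ ⊆ Ω₂ := by
  have ht : 1 / σc - 1 ≠ 0 := by
    intro h
    apply hσ1
    have : 1 / σc = 1 := by linarith
    field_simp at this
    linarith
  have ht1 : -1 < 1 / σc - 1 := by
    have : 0 < 1 / σc := by positivity
    linarith
  obtain ⟨C, r2, a, b, h1, h2, h3, hff, h0⟩ := params N hN (1 / σc - 1) ht ht1
  have h12 : (1 : ℝ) < r2 := by linarith
  obtain ⟨r0, hr0, hvol⟩ := shell_volume_lt hN one_pos h12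
  obtain ⟨r, hr1, hr2⟩ := exists_between (max_lt hr0 h3)
  have hrb : b < r := (le_max_right _ _).trans_lt hr1
  have hrr : r0 < r := (le_max_left _ _).trans_lt hr1
  have hN1 : 1 ≤ N := by omega
  refine ⟨Sh N a b, Sh N 1 r2, Metric.ball (0 : E N) r, isDom_shell hN (by linarith) h2,
    isDom_shell hN one_pos h12, isDom_ball hN1 (by linarith), ?_, ?_, hvol r hrr,
    not_subset hN1 one_pos h12 hr2⟩
  · exact isSol_shell hN hσ one_pos h1 h2 h3 hff h0 (closure_shell N a b) (frontier_shell N 1 r2)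
      (fun x hx => normal_outer one_pos h12 hx) (fun x hx => normal_inner one_pos h12 hx)
  · exact isSol_ball hN hσ (by linarith) h2 hrb (closure_shell N a b)
      (fun x hx => normal_ball (by linarith) hx)

end Pool.Agent.Helper96.SR
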